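import Mathlib

set_option autoImplicit false

open Filter Topology Finset

/-!
Selection lemma (elementary replacement of Rosenthal's theorem): Walsh coefficients `c k T`
with Bessel's inequality and `γ ≤ c k {k}`; choose a subsequence along which the Riesz sums
are almost `c0 + s k * d0`, with `γ ≤ d0`.
-/

namespace Pool.Agent.W_MP_d6e406_h18

/-- Riesz sum over the subsets of `P`. -/
noncomputable def W (a : Finset ℕ → ℝ) (P : Finset ℕ) (s : ℕ → ℝ) : ℝ :=
  ∑ T ∈ P.powerset, (∏ j ∈ T, s j) * a T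

theorem W_empty (a : Finset ℕ → ℝ) (s : ℕ → ℝ) : W a ∅ s = a ∅ := by
  simp [W]

theorem W_insert (a : Finset ℕ → ℝ) (P : Finset ℕ) (s : ℕ → ℝ) (p : ℕ) (hp : p ∉ P) :
    W a (insert p P) s = W a P s + s p * W (fun T => a (insert p T)) P s := by
  unfold W
  rw [Finset.sum_powerset_insert hp, Finset.mul_sum]
  congr 1
  apply Finset.sum_congr rfl
  intro T hT
  have hpT : p ∉ T := fun h => hp (Finset.mem_powerset.1 hT h)
  rw [Finset.prod_insert hpT]
  ring

theorem W_sub (a b : Finset ℕ → ℝ) (P : Finset ℕ) (s : ℕ → ℝ) :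
    W a P s - W b P s = W (fun T => a T - b T) P s := by
  unfold W
  rw [← Finset.sum_sub_distrib]
  apply Finset.sum_congr rfl
  intro T _
  ring

theorem W_bound (a : Finset ℕ → ℝ) (P : Finset ℕ) (s : ℕ → ℝ) (hs : ∀ j, |s j| = 1) (τ : ℝ)
    (ha : ∀ T, T ⊆ P → |a T| ≤ τ) : |W a P s| ≤ 2 ^ P.card * τ := by
  unfold W
  calc |∑ T ∈ P.powerset, (∏ j ∈ T, s j) * a T|
      ≤ ∑ T ∈ P.powerset, |(∏ j ∈ T, s j) * a T| := Finset.abs_sum_le_sum_abs _ _
    _ ≤ ∑ T ∈ P.powerset, τ := by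
        apply Finset.sum_le_sum
        intro T hT
        rw [abs_mul, Finset.abs_prod]
        simp only [hs, Finset.prod_const_one, one_mul]
        exact ha T (Finset.mem_powerset.1 hT)
    _ = 2 ^ P.card * τ := by
        rw [Finset.sum_const, Finset.card_powerset, nsmul_eq_mul]
        push_cast
        ring

/-- square summable families are small on `insert p T`, `p` large. -/
theorem small_insert (a : Finset ℕ → ℝ)
    (ha : ∀ F : Finset (Finset ℕ), ∑ T ∈ F, (a T) ^ 2 ≤ 1) (T : Finset ℕ) (τ : ℝ) (hτ : 0 < τ) :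
    ∀ᶠ p in atTop, |a (insert p T)| ≤ τ := by
  have hs : Summable (fun T => (a T) ^ 2) :=
    summable_of_sum_le (fun T => sq_nonneg _) ha
  have h1 := hs.tendsto_cofinite_zero
  have h2 : Tendsto (fun p : ℕ => insert p T) atTop cofinite := by
    rw [← Nat.cofinite_eq_atTop]
    intro S hS
    rw [Filter.mem_map, Filter.mem_cofinite]
    rw [Filter.mem_cofinite] at hS
    apply Set.Finite.subset (hS.biUnion (fun T' _ => T'.finite_toSet))
    intro p hp
    simp only [Set.mem_iUnion]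
    exact ⟨insert p T, hp, by simp⟩
  have h3 := h1.comp h2
  have h4 : ∀ᶠ p in atTop, ((fun T => (a T) ^ 2) ∘ fun p : ℕ => insert p T) p < τ ^ 2 :=
    h3.eventually_lt_const (by positivity)
  filter_upwards [h4] with p hp
  simp only [Function.comp] at hp
  exact (abs_lt_of_sq_lt_sq hp hτ.le).le

/-- limits of bounded sequences along an ultrafilter. -/
theorem exists_lim (V : Ultrafilter ℕ) (x : ℕ → ℝ) (C : ℝ) (hx : ∀ᶠ n in (V : Filter ℕ), |x n| ≤ C) :
    ∃ l, Tendsto x V (𝓝 l) := by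
  have h1 : Set.Icc (-C) C ∈ (V.map x) := by
    rw [Ultrafilter.mem_map]
    filter_upwards [hx] with n hn
    exact abs_le.1 hn
  obtain ⟨l, _, hl⟩ := isCompact_Icc.ultrafilter_le_nhds (V.map x) (by
    rw [le_principal_iff]; exact h1)
  exact ⟨l, hl⟩

/-- the choice of the next index. -/
def Good (c : ℕ → Finset ℕ → ℝ) (ci di : Finset ℕ → ℝ) (P : Finset ℕ) (τ : ℝ) (p : ℕ) : Prop :=
  p ∉ P ∧ (∀ q ∈ P, ∀ T ∈ P.powerset, |c q (insert p T)| ≤ τ) ∧
  (∀ T ∈ P.powerset, |ci (insert p T)| ≤ τ) ∧ (∀ T ∈ P.powerset, |di (insert p T)| ≤ τ) ∧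
  (∀ T ∈ P.powerset, |c p T - ci T| ≤ τ) ∧
  (∀ T ∈ P.powerset, |c p (insert p T) - di T| ≤ τ)

theorem exists_good (c : ℕ → Finset ℕ → ℝ) (ci di : Finset ℕ → ℝ)
    (hc : ∀ k, ∀ F : Finset (Finset ℕ), ∑ T ∈ F, (c k T) ^ 2 ≤ 1)
    (hci : ∀ F : Finset (Finset ℕ), ∑ T ∈ F, (ci T) ^ 2 ≤ 1)
    (hdi : ∀ F : Finset (Finset ℕ), ∑ T ∈ F, (di T) ^ 2 ≤ 1)
    (h1 : ∀ T, Tendsto (fun k => c k T) (hyperfilter ℕ) (𝓝 (ci T)))
    (h2 : ∀ T, Tendsto (fun k => c k (insert k T)) (hyperfilter ℕ) (𝓝 (di T)))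
    (P : Finset ℕ) (τ : ℝ) (hτ : 0 < τ) : ∃ p, Good c ci di P τ p := by
  have e0 : ∀ᶠ p in (hyperfilter ℕ : Filter ℕ), p ∉ P := by
    have : ((P : Set ℕ)ᶜ) ∈ hyperfilter ℕ := compl_mem_hyperfilter_of_finite P.finite_toSet
    filter_upwards [this] with p hp
    simpa using hp
  have e1 : ∀ᶠ p in (hyperfilter ℕ : Filter ℕ), ∀ q ∈ P, ∀ T ∈ P.powerset,
      |c q (insert p T)| ≤ τ := by
    rw [eventually_all_finset]
    intro q _
    rw [eventually_all_finset]
    intro T _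
    exact (small_insert (c q) (hc q) T τ hτ).filter_mono Nat.hyperfilter_le_atTop
  have e2 : ∀ᶠ p in (hyperfilter ℕ : Filter ℕ), ∀ T ∈ P.powerset,
      |ci (insert p T)| ≤ τ := by
    rw [eventually_all_finset]
    intro T _
    exact (small_insert ci hci T τ hτ).filter_mono Nat.hyperfilter_le_atTop
  have e3 : ∀ᶠ p in (hyperfilter ℕ : Filter ℕ), ∀ T ∈ P.powerset,
      |di (insert p T)| ≤ τ := by
    rw [eventually_all_finset]
    intro T _
    exact (small_insert di hdi T τ hτ).filter_mono Nat.hyperfilter_le_atTop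
  have e4 : ∀ᶠ p in (hyperfilter ℕ : Filter ℕ), ∀ T ∈ P.powerset, |c p T - ci T| ≤ τ := by
    rw [eventually_all_finset]
    intro T _
    have := (Metric.tendsto_nhds.1 (h1 T)) τ hτ
    filter_upwards [this] with p hp
    rw [Real.dist_eq] at hp
    exact hp.le
  have e5 : ∀ᶠ p in (hyperfilter ℕ : Filter ℕ), ∀ T ∈ P.powerset,
      |c p (insert p T) - di T| ≤ τ := by
    rw [eventually_all_finset]
    intro T _
    have := (Metric.tendsto_nhds.1 (h2 T)) τ hτ
    filter_upwards [this] with p hp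
    rw [Real.dist_eq] at hp
    exact hp.le
  obtain ⟨p, hp⟩ := (e0.and (e1.and (e2.and (e3.and (e4.and e5))))).exists
  exact ⟨p, hp⟩

/-- the recursively chosen finite sets. -/
noncomputable def Pseq (f : ℕ → Finset ℕ → ℕ) : ℕ → Finset ℕ
  | 0 => ∅
  | j + 1 => insert (f j (Pseq f j)) (Pseq f j)

theorem Pseq_card (f : ℕ → Finset ℕ → ℕ) (hf : ∀ j, f j (Pseq f j) ∉ Pseq f j) (j : ℕ) :
    (Pseq f j).card = j := by
  induction j with
  | zero => simp [Pseq]
  | succ j ih => rw [Pseq, Finset.card_insert_of_notMem (hf j), ih]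

theorem mem_Pseq (f : ℕ → Finset ℕ → ℕ) {k J : ℕ} (h : k < J) : f k (Pseq f k) ∈ Pseq f J := by
  induction J with
  | zero => omega
  | succ J ih =>
    rw [Pseq]
    rcases Nat.lt_succ_iff_lt_or_eq.1 h with h | h
    · exact Finset.mem_insert_of_mem (ih h)
    · subst h
      exact Finset.mem_insert_self _ _

theorem tele (a : Finset ℕ → ℝ) (f : ℕ → Finset ℕ → ℕ) (hf : ∀ j, f j (Pseq f j) ∉ Pseq f j)
    (τ : ℕ → ℝ) (s : ℕ → ℝ) (hs : ∀ j, |s j| = 1) (k : ℕ)
    (ha : ∀ j, k ≤ j → ∀ T ∈ (Pseq f j).powerset, |a (insert (f j (Pseq f j)) T)| ≤ τ j)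
    (J : ℕ) (hJ : k ≤ J) :
    |W a (Pseq f J) s - W a (Pseq f k) s| ≤ ∑ j ∈ Finset.Ico k J, 2 ^ j * τ j := by
  induction J, hJ using Nat.le_induction with
  | base => simp
  | succ J hJ ih =>
    rw [Finset.sum_Ico_succ_top hJ, Pseq, W_insert _ _ _ _ (hf J)]
    have h1 : |s (f J (Pseq f J)) * W (fun T => a (insert (f J (Pseq f J)) T)) (Pseq f J) s|
        ≤ 2 ^ J * τ J := by
      rw [abs_mul, hs, one_mul]
      have := W_bound (fun T => a (insert (f J (Pseq f J)) T)) (Pseq f J) s hs (τ J)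
        (fun T hT => ha J hJ T (Finset.mem_powerset.2 hT))
      rwa [Pseq_card f hf] at this
    calc _ = |(W a (Pseq f J) s - W a (Pseq f k) s) +
          s (f J (Pseq f J)) * W (fun T => a (insert (f J (Pseq f J)) T)) (Pseq f J) s| := by
          congr 1; ring
      _ ≤ _ := abs_add_le _ _
      _ ≤ _ := add_le_add ih h1

theorem geom_bound (γ : ℝ) (hγ : 0 < γ) (k J : ℕ) (h : k ≤ J) :
    ∑ j ∈ Finset.Ico k J, 2 ^ j * (γ / 8 / 4 ^ j) ≤ γ / 4 * (1 / 2 ^ k) - γ / 4 * (1 / 2 ^ J) := by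
  induction J, h using Nat.le_induction with
  | base => simp
  | succ J hJ ih =>
    rw [Finset.sum_Ico_succ_top hJ]
    have h4 : (4 : ℝ) ^ J = 2 ^ J * 2 ^ J := by
      rw [← mul_pow]; norm_num
    have h2 : (0 : ℝ) < 2 ^ J := by positivity
    have : (2 : ℝ) ^ J * (γ / 8 / 4 ^ J) = γ / 4 * (1 / 2 ^ J) - γ / 4 * (1 / 2 ^ (J + 1)) := by
      rw [h4, pow_succ]
      field_simp
      ring
    linarith

/-- **Selection lemma.** -/
theorem selection (c : ℕ → Finset ℕ → ℝ)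
    (hc : ∀ k, ∀ F : Finset (Finset ℕ), ∑ T ∈ F, (c k T) ^ 2 ≤ 1)
    (γ : ℝ) (hγ : 0 < γ) (hck : ∀ k, γ ≤ c k {k}) :
    ∃ (n : ℕ → ℕ) (P : ℕ → Finset ℕ) (c0 d0 : ℝ), γ ≤ d0 ∧ (∀ j k, n j = n k → j = k) ∧
      ∀ J k, k < J → n k ∈ P J ∧ ∀ s : ℕ → ℝ, (∀ j, |s j| = 1) →
        |W (c (n k)) (P J) s - (c0 + s (n k) * d0)| ≤ γ / 2 := by
  have hb : ∀ k T, |c k T| ≤ 1 := by
    intro k T
    have := hc k {T}
    rw [Finset.sum_singleton] at this
    rw [← sq_le_one_iff_abs_le_one]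
    exact this
  choose ci hci using fun T => exists_lim (hyperfilter ℕ) (fun k => c k T) 1
    (Eventually.of_forall fun k => hb k T)
  choose di hdi using fun T => exists_lim (hyperfilter ℕ) (fun k => c k (insert k T)) 1
    (Eventually.of_forall fun k => hb k _)
  have hBi : ∀ F : Finset (Finset ℕ), ∑ T ∈ F, (ci T) ^ 2 ≤ 1 := by
    intro F
    have : Tendsto (fun k => ∑ T ∈ F, (c k T) ^ 2) (hyperfilter ℕ)
        (𝓝 (∑ T ∈ F, (ci T) ^ 2)) := tendsto_finsetSum _ fun T _ => (hci T).pow 2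
    exact le_of_tendsto this (Eventually.of_forall fun k => hc k F)
  have hBd : ∀ F : Finset (Finset ℕ), ∑ T ∈ F, (di T) ^ 2 ≤ 1 := by
    intro F
    have : Tendsto (fun k => ∑ T ∈ F, (c k (insert k T)) ^ 2) (hyperfilter ℕ)
        (𝓝 (∑ T ∈ F, (di T) ^ 2)) := tendsto_finsetSum _ fun T _ => (hdi T).pow 2
    refine le_of_tendsto this ?_
    have h0 : ∀ᶠ k in (hyperfilter ℕ : Filter ℕ), k ∉ F.biUnion id := by
      have : (((F.biUnion id : Finset ℕ) : Set ℕ)ᶜ) ∈ hyperfilter ℕ :=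
        compl_mem_hyperfilter_of_finite (Finset.finite_toSet _)
      filter_upwards [this] with p hp
      simpa using hp
    filter_upwards [h0] with k hk
    have hinj : Set.InjOn (fun T : Finset ℕ => insert k T) (F : Set (Finset ℕ)) := by
      intro T hT T' hT' h
      have hk1 : k ∉ T := fun h => hk (Finset.mem_biUnion.2 ⟨T, hT, h⟩)
      have hk2 : k ∉ T' := fun h => hk (Finset.mem_biUnion.2 ⟨T', hT', h⟩)
      simp only at h
      rw [← Finset.erase_insert hk1, ← Finset.erase_insert hk2, h]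
    have := hc k (F.image (fun T : Finset ℕ => insert k T))
    rwa [Finset.sum_image hinj] at this
  have hd0 : γ ≤ di ∅ := by
    refine ge_of_tendsto (hdi ∅) (Eventually.of_forall fun k => ?_)
    simpa using hck k
  have hτ : ∀ j : ℕ, 0 < γ / 8 / 4 ^ j := fun j => by positivity
  choose f hf using fun (j : ℕ) (P : Finset ℕ) =>
    exists_good c ci di hc hBi hBd hci hdi P (γ / 8 / 4 ^ j) (hτ j)
  have hf0 : ∀ j, f j (Pseq f j) ∉ Pseq f j := fun j => (hf j (Pseq f j)).1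
  refine ⟨fun j => f j (Pseq f j), Pseq f, ci ∅, di ∅, hd0, ?_, ?_⟩
  · have key : ∀ j k, j < k → f j (Pseq f j) ≠ f k (Pseq f k) := by
      intro j k hjk h
      exact hf0 k (h ▸ mem_Pseq f hjk)
    intro j k h
    rcases lt_trichotomy j k with h' | h' | h'
    · exact absurd h (key j k h')
    · exact h'
    · exact absurd h.symm (key k j h')
  · intro J k hkJ
    refine ⟨mem_Pseq f hkJ, ?_⟩
    intro s hs
    set nk := f k (Pseq f k) with hnk
    -- telescoping for `ci` and `di`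
    have t1 := tele ci f hf0 (fun j => γ / 8 / 4 ^ j) s hs 0
      (fun j _ T hT => (hf j (Pseq f j)).2.2.1 T hT) k (Nat.zero_le k)
    have t2 := tele di f hf0 (fun j => γ / 8 / 4 ^ j) s hs 0
      (fun j _ T hT => (hf j (Pseq f j)).2.2.2.1 T hT) k (Nat.zero_le k)
    have t3 := tele (c nk) f hf0 (fun j => γ / 8 / 4 ^ j) s hs (k + 1)
      (fun j hj T hT => (hf j (Pseq f j)).2.1 nk (mem_Pseq f hj) T hT) J hkJ
    have g1 := geom_bound γ hγ 0 k (Nat.zero_le k)
    have g3 := geom_bound γ hγ (k + 1) J hkJ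
    have e1 := W_bound (fun T => c nk T - ci T) (Pseq f k) s hs (γ / 8 / 4 ^ k)
      (fun T hT => (hf k (Pseq f k)).2.2.2.2.1 T (Finset.mem_powerset.2 hT))
    have e2 := W_bound (fun T => c nk (insert nk T) - di T) (Pseq f k) s hs (γ / 8 / 4 ^ k)
      (fun T hT => (hf k (Pseq f k)).2.2.2.2.2 T (Finset.mem_powerset.2 hT))
    rw [← W_sub, Pseq_card f hf0] at e1
    rw [← W_sub (fun T => c nk (insert nk T)) di, Pseq_card f hf0] at e2
    simp only [Pseq, W_empty] at t1 t2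
    have hW : W (c nk) (Pseq f (k + 1)) s =
        W (c nk) (Pseq f k) s + s nk * W (fun T => c nk (insert nk T)) (Pseq f k) s := by
      rw [Pseq, W_insert _ _ _ _ (hf0 k)]
    have g2 := geom_bound γ hγ k (k + 1) (Nat.le_succ k)
    simp only [Nat.Ico_succ_singleton, Finset.sum_singleton] at g2
    have hpJ : (0 : ℝ) < γ / 4 * (1 / 2 ^ J) := by positivity
    have hpk : (0 : ℝ) < γ / 4 * (1 / 2 ^ (k + 1)) := by positivity
    have hp0 : γ / 4 * (1 / 2 ^ 0) = γ / 4 := by norm_num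
    rw [hp0] at g1
    have hdec : W (c nk) (Pseq f J) s - (ci ∅ + s nk * di ∅) =
        (W (c nk) (Pseq f J) s - W (c nk) (Pseq f (k + 1)) s) +
        (W (c nk) (Pseq f k) s - W ci (Pseq f k) s) + (W ci (Pseq f k) s - ci ∅) +
        s nk * ((W (fun T => c nk (insert nk T)) (Pseq f k) s - W di (Pseq f k) s) +
          (W di (Pseq f k) s - di ∅)) := by
      rw [hW]; ring
    rw [hdec]
    have hsn := hs nk
    have a1 := abs_le.1 t3
    have a2 := abs_le.1 e1
    have a3 := abs_le.1 t1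
    have h5 : |s nk * ((W (fun T => c nk (insert nk T)) (Pseq f k) s - W di (Pseq f k) s) +
          (W di (Pseq f k) s - di ∅))| ≤ 2 ^ k * (γ / 8 / 4 ^ k) + γ / 4 * (1 / 2 ^ 0) -
            γ / 4 * (1 / 2 ^ k) := by
      rw [abs_mul, hsn, one_mul, hp0]
      refine (abs_add_le _ _).trans ?_
      linarith
    rw [hp0] at h5
    have a5 := abs_le.1 h5
    rw [abs_le]
    constructor <;> linarith [a1.1, a1.2, a2.1, a2.2, a3.1, a3.2, a5.1, a5.2]

end Pool.Agent.W_MP_d6e406_h18
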