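import Pool.Agent.W_MP_d6e406_h11.Defs
import Pool.Agent.W_MP_d6e406_h18.Selection

set_option autoImplicit false

open Filter Topology Finset

/-!
From the lower `ℓ₁` estimate, and from systems of Walsh coefficients in the dual ball, to a copy
of `ℓ₁`.
-/

namespace Pool.Agent.W_MP_d6e406_h18

open Pool.Agent.W_MP_d6e406_h11

universe u

variable {X : Type u} [NormedAddCommGroup X] [NormedSpace ℝ X]

theorem lp_summable (x : lp (fun _ : ℕ => ℝ) 1) : Summable fun k => ‖x k‖ := by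
  have := (lp.memℓp x).summable (by norm_num)
  simpa using this

theorem lp_norm (x : lp (fun _ : ℕ => ℝ) 1) : ‖x‖ = ∑' k, ‖x k‖ := by
  have := lp.norm_eq_tsum_rpow (p := 1) (by norm_num) x
  simpa using this

theorem hasEll1_of_lower [CompleteSpace X] (y : ℕ → X) (hy : ∀ n, ‖y n‖ ≤ 1) (κ : ℝ) (hκ : 0 < κ)
    (h : ∀ (J : ℕ) (a : ℕ → ℝ), κ * ∑ k ∈ range J, |a k| ≤ ‖∑ k ∈ range J, a k • y k‖) :
    HasEll1 X := by
  have hb : ∀ (x : lp (fun _ : ℕ => ℝ) 1) k, ‖x k • y k‖ ≤ ‖x k‖ := by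
    intro x k
    rw [norm_smul]
    exact mul_le_of_le_one_right (norm_nonneg _) (hy k)
  have hs : ∀ x : lp (fun _ : ℕ => ℝ) 1, Summable fun k => x k • y k := fun x =>
    Summable.of_norm_bounded (lp_summable x) (hb x)
  let L : lp (fun _ : ℕ => ℝ) 1 →ₗ[ℝ] X :=
    { toFun := fun x => ∑' k, x k • y k
      map_add' := by
        intro x x'
        rw [← (hs x).tsum_add (hs x')]
        congr 1
        ext k
        simp [add_smul]
      map_smul' := by
        intro r x
        rw [RingHom.id_apply, ← (hs x).tsum_const_smul]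
        congr 1
        ext k
        simp [mul_smul] }
  have hL : ∀ x, ‖L x‖ ≤ 1 * ‖x‖ := by
    intro x
    rw [one_mul, lp_norm]
    exact tsum_of_norm_bounded (lp_summable x).hasSum (hb x)
  refine ⟨L.mkContinuous 1 hL, κ, hκ, ?_⟩
  intro x
  have h1 : Tendsto (fun J => κ * ∑ k ∈ range J, |x k|) atTop (𝓝 (κ * ‖x‖)) := by
    rw [lp_norm]
    exact (lp_summable x).hasSum.tendsto_sum_nat.const_mul κ
  have h2 : Tendsto (fun J => ‖∑ k ∈ range J, x k • y k‖) atTop (𝓝 ‖L x‖) :=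
    (hs x).hasSum.tendsto_sum_nat.norm
  exact le_of_tendsto_of_tendsto' h1 h2 (fun J => h J (fun k => x k))

theorem ell1_of_walsh [CompleteSpace X] (y : ℕ → X) (hy : ∀ n, ‖y n‖ ≤ 1) (γ : ℝ) (hγ : 0 < γ)
    (H : ∀ n : ℕ, ∃ z : Finset ℕ → (X →L[ℝ] ℝ),
      (∀ x, ‖x‖ ≤ 1 → ∀ F : Finset (Finset ℕ), (∀ T ∈ F, T ⊆ range n) →
        ∑ T ∈ F, (z T x) ^ 2 ≤ 1) ∧
      (∀ P, P ⊆ range n → ∀ s : ℕ → ℝ, (∀ j, |s j| = 1) →
        ‖∑ T ∈ P.powerset, (∏ j ∈ T, s j) • z T‖ ≤ 1) ∧
      ∀ k, k < n → γ ≤ z {k} (y k)) : HasEll1 X := by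
  choose z hz1 hz2 hz3 using H
  have hT : ∀ T : Finset ℕ, ∀ᶠ n in (hyperfilter ℕ : Filter ℕ), T ⊆ range n := by
    intro T
    apply Filter.Eventually.filter_mono Nat.hyperfilter_le_atTop
    filter_upwards [eventually_ge_atTop (T.sup id + 1)] with n hn
    intro j hj
    rw [Finset.mem_range]
    have : id j ≤ T.sup id := Finset.le_sup hj
    simp only [id] at this
    omega
  have hb : ∀ k T, ∀ᶠ n in (hyperfilter ℕ : Filter ℕ), |z n T (y k)| ≤ 1 := by
    intro k T
    filter_upwards [hT T] with n hn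
    have := hz1 n (y k) (hy k) {T} (by simpa using hn)
    rw [Finset.sum_singleton] at this
    rw [← sq_le_one_iff_abs_le_one]
    exact this
  choose c hc using fun k T => exists_lim (hyperfilter ℕ) (fun n => z n T (y k)) 1 (hb k T)
  have hcB : ∀ k, ∀ F : Finset (Finset ℕ), ∑ T ∈ F, (c k T) ^ 2 ≤ 1 := by
    intro k F
    have : Tendsto (fun n => ∑ T ∈ F, (z n T (y k)) ^ 2) (hyperfilter ℕ)
        (𝓝 (∑ T ∈ F, (c k T) ^ 2)) := tendsto_finsetSum _ fun T _ => (hc k T).pow 2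
    refine le_of_tendsto this ?_
    have h0 : ∀ᶠ n in (hyperfilter ℕ : Filter ℕ), ∀ T ∈ F, T ⊆ range n := by
      rw [eventually_all_finset]
      exact fun T _ => hT T
    filter_upwards [h0] with n hn
    exact hz1 n (y k) (hy k) F hn
  have hck : ∀ k, γ ≤ c k {k} := by
    intro k
    refine ge_of_tendsto (hc k {k}) ?_
    filter_upwards [hT {k}] with n hn
    exact hz3 n k (by simpa using hn)
  obtain ⟨n, P, c0, d0, hd0, hinj, hsel⟩ := selection c hcB γ hγ hck
  have hninj : Function.Injective n := fun j k h => hinj j k h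
  refine hasEll1_of_lower (fun k => y (n k)) (fun k => hy _) (γ / 2) (by positivity) ?_
  intro J a
  -- signs
  set s : ℕ → ℝ := Function.extend n (fun k => if 0 ≤ a k then (1 : ℝ) else -1) (fun _ => 1)
    with hs
  have hsn : ∀ k, s (n k) = if 0 ≤ a k then (1 : ℝ) else -1 := by
    intro k
    rw [hs, hninj.extend_apply]
  have hs1 : ∀ j, |s j| = 1 := by
    intro j
    by_cases hj : ∃ k, n k = j
    · obtain ⟨k, rfl⟩ := hj
      rw [hsn]
      split_ifs <;> simp
    · rw [hs, Function.extend_apply' _ _ _ hj]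
      simp
  have hs2 : ∀ j, |(-s) j| = 1 := by
    intro j
    rw [Pi.neg_apply, abs_neg, hs1]
  set v := ∑ k ∈ range J, a k • y (n k) with hv
  have hW : ∀ (s' : ℕ → ℝ) (m : ℕ), (∑ T ∈ (P J).powerset, (∏ j ∈ T, s' j) • z m T) v =
      ∑ k ∈ range J, a k * W (fun T => z m T (y (n k))) (P J) s' := by
    intro s' m
    rw [hv, map_sum]
    apply Finset.sum_congr rfl
    intro k _
    rw [map_smul, smul_eq_mul]
    congr 1
    rw [_root_.sum_apply]
    rfl
  have hlimW : ∀ (s' : ℕ → ℝ), Tendsto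
      (fun m => ∑ k ∈ range J, a k * W (fun T => z m T (y (n k))) (P J) s') (hyperfilter ℕ)
      (𝓝 (∑ k ∈ range J, a k * W (c (n k)) (P J) s')) := by
    intro s'
    refine tendsto_finsetSum _ fun k _ => Tendsto.const_mul _ ?_
    unfold W
    exact tendsto_finsetSum _ fun T _ => (hc (n k) T).const_mul _
  have hle : ∑ k ∈ range J, a k * W (c (n k)) (P J) s -
      ∑ k ∈ range J, a k * W (c (n k)) (P J) (-s) ≤ 2 * ‖v‖ := by
    refine le_of_tendsto ((hlimW s).sub (hlimW (-s))) ?_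
    filter_upwards [hT (P J)] with m hm
    rw [← hW, ← hW]
    have h1 := hz2 m (P J) hm s hs1
    have h2 := hz2 m (P J) hm (-s) hs2
    have h3 := ContinuousLinearMap.le_of_opNorm_le _ h1 v
    have h4 := ContinuousLinearMap.le_of_opNorm_le _ h2 v
    rw [Real.norm_eq_abs] at h3 h4
    have h5 := (abs_le.1 h3).2
    have h6 := (abs_le.1 h4).1
    linarith
  have hge : ∑ k ∈ range J, γ * |a k| ≤ ∑ k ∈ range J, a k * W (c (n k)) (P J) s -
      ∑ k ∈ range J, a k * W (c (n k)) (P J) (-s) := by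
    rw [← Finset.sum_sub_distrib]
    apply Finset.sum_le_sum
    intro k hk
    have hk' := Finset.mem_range.1 hk
    have e1 := abs_le.1 ((hsel J k hk').2 s hs1)
    have e2 := abs_le.1 ((hsel J k hk').2 (-s) hs2)
    rw [Pi.neg_apply] at e2
    rw [hsn] at e1 e2
    rw [← mul_sub]
    split_ifs at e1 e2 with h0
    · rw [abs_of_nonneg h0, mul_comm γ]
      apply mul_le_mul_of_nonneg_left _ h0
      linarith [e1.1, e2.2]
    · push Not at h0
      rw [abs_of_neg h0]
      have : W (c (n k)) (P J) s - W (c (n k)) (P J) (-s) ≤ -γ := by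
        linarith [e1.2, e2.1]
      nlinarith
  rw [← Finset.mul_sum] at hge
  linarith

end Pool.Agent.W_MP_d6e406_h18
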