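import Mathlib

set_option autoImplicit false

open Filter Topology Finset

/-!
Quenching lemma: many events of probability at least `δ`, each with a colour from a finite set,
on a sequence of finite probability spaces: one can fix a sequence of indices and of colours so
that each finite subfamily of the events, with the prescribed colours, can occur.
-/

namespace Pool.Agent.W_MP_d6e406_h18

universe u

variable {Ω : ℕ → Type u} [∀ K, Fintype (Ω K)] [∀ K, DecidableEq (Ω K)] [∀ K, Nonempty (Ω K)]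

/-- `B` meets `A _ k` substantially, for infinitely many `k`. -/
def Rich (A : ∀ K, ℕ → Finset (Ω K)) (B : ∀ K, Finset (Ω K)) : Prop :=
  ∃ η : ℝ, 0 < η ∧ ∃ᶠ k in atTop, ∀ᶠ K in (hyperfilter ℕ : Filter ℕ),
    η * (Fintype.card (Ω K) : ℝ) ≤ ((B K ∩ A K k).card : ℝ)

theorem rich_pair (A : ∀ K, ℕ → Finset (Ω K)) (B : ∀ K, Finset (Ω K)) (hB : Rich A B) (N : ℕ) :
    ∃ k, N ≤ k ∧ Rich A (fun K => B K ∩ A K k) := by
  obtain ⟨η, hη, hfr⟩ := hB
  by_contra hcon
  have hcon' : ∀ k, N ≤ k → ∀ η' : ℝ, 0 < η' → ∀ᶠ l in atTop,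
      ∀ᶠ K in (hyperfilter ℕ : Filter ℕ),
        ((B K ∩ A K k ∩ A K l).card : ℝ) < η' * (Fintype.card (Ω K) : ℝ) := by
    intro k hk η' hη'
    by_contra h
    apply hcon
    refine ⟨k, hk, η', hη', ?_⟩
    rw [Filter.not_eventually] at h
    refine h.mono ?_
    intro l hl
    rw [← Ultrafilter.eventually_not] at hl
    filter_upwards [hl] with K hK
    exact not_lt.1 hK
  have claim : ∀ t : ℕ, ∃ S : Finset ℕ, (∀ k ∈ S, N ≤ k) ∧
      ∀ᶠ K in (hyperfilter ℕ : Filter ℕ), (t : ℝ) * (η / 2) * (Fintype.card (Ω K) : ℝ) ≤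
        ((S.biUnion fun k => B K ∩ A K k).card : ℝ) := by
    intro t
    induction t with
    | zero => exact ⟨∅, by simp, by simp⟩
    | succ t ih =>
      obtain ⟨S, hS, hev⟩ := ih
      have hε : 0 < η / 2 / (S.card + 1 : ℝ) := by positivity
      have e1 : ∀ᶠ l in atTop, ∀ k ∈ S, ∀ᶠ K in (hyperfilter ℕ : Filter ℕ),
          ((B K ∩ A K k ∩ A K l).card : ℝ) <
            η / 2 / (S.card + 1 : ℝ) * (Fintype.card (Ω K) : ℝ) := by
        rw [eventually_all_finset]
        exact fun k hk => hcon' k (hS k hk) _ hε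
      obtain ⟨l, hl1, hl2, hl3⟩ := (hfr.and_eventually (e1.and (eventually_ge_atTop N))).exists
      refine ⟨insert l S, ?_, ?_⟩
      · intro k hk
        rcases Finset.mem_insert.1 hk with h | h
        · exact h ▸ hl3
        · exact hS k h
      have hl2' : ∀ᶠ K in (hyperfilter ℕ : Filter ℕ), ∀ k ∈ S,
          ((B K ∩ A K k ∩ A K l).card : ℝ) <
            η / 2 / (S.card + 1 : ℝ) * (Fintype.card (Ω K) : ℝ) := by
        rw [eventually_all_finset]
        exact hl2
      filter_upwards [hev, hl1, hl2'] with K h1 h2 h3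
      rw [Finset.biUnion_insert]
      set M := S.biUnion fun k => B K ∩ A K k with hM
      have hci : ((B K ∩ A K l) ∩ M).card ≤ ∑ k ∈ S, (B K ∩ A K k ∩ A K l).card := by
        have : (B K ∩ A K l) ∩ M ⊆ S.biUnion fun k => B K ∩ A K k ∩ A K l := by
          intro ω hω
          simp only [hM, Finset.mem_inter, Finset.mem_biUnion] at hω ⊢
          obtain ⟨⟨ha, hb⟩, k, hk, hc, hd⟩ := hω
          exact ⟨k, hk, ⟨ha, hd⟩, hb⟩
        exact (Finset.card_le_card this).trans Finset.card_biUnion_le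
      have hci' : (((B K ∩ A K l) ∩ M).card : ℝ) ≤ η / 2 * (Fintype.card (Ω K) : ℝ) := by
        calc (((B K ∩ A K l) ∩ M).card : ℝ) ≤ ∑ k ∈ S, ((B K ∩ A K k ∩ A K l).card : ℝ) := by
              exact_mod_cast hci
          _ ≤ ∑ k ∈ S, η / 2 / (S.card + 1 : ℝ) * (Fintype.card (Ω K) : ℝ) :=
              Finset.sum_le_sum fun k hk => (h3 k hk).le
          _ = (S.card / (S.card + 1 : ℝ)) * (η / 2 * (Fintype.card (Ω K) : ℝ)) := by
              rw [Finset.sum_const, nsmul_eq_mul]
              field_simp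
          _ ≤ 1 * (η / 2 * (Fintype.card (Ω K) : ℝ)) := by
              apply mul_le_mul_of_nonneg_right _ (by positivity)
              rw [div_le_one (by positivity)]
              linarith
          _ = _ := one_mul _
      have hcu : (((B K ∩ A K l) ∪ M).card : ℝ) + (((B K ∩ A K l) ∩ M).card : ℝ) =
          ((B K ∩ A K l).card : ℝ) + (M.card : ℝ) := by
        exact_mod_cast Finset.card_union_add_card_inter _ _
      push_cast
      nlinarith
  obtain ⟨t, ht⟩ := exists_nat_gt (1 / (η / 2))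
  obtain ⟨S, _, hev⟩ := claim t
  obtain ⟨K, hK⟩ := hev.exists
  have hcard : (0 : ℝ) < Fintype.card (Ω K) := by exact_mod_cast Fintype.card_pos
  have h1 : ((S.biUnion fun k => B K ∩ A K k).card : ℝ) ≤ Fintype.card (Ω K) := by
    exact_mod_cast Finset.card_le_univ _
  rw [div_lt_iff₀ (by positivity)] at ht
  nlinarith

theorem ultra_exists {ι : Type*} [Finite ι] (V : Ultrafilter ℕ) (p : ι → ℕ → Prop)
    (h : ∀ᶠ K in (V : Filter ℕ), ∃ v, p v K) : ∃ v, ∀ᶠ K in (V : Filter ℕ), p v K := by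
  by_contra hcon
  push Not at hcon
  have h1 : ∀ᶠ K in (V : Filter ℕ), ∀ v, ¬ p v K := by
    rw [eventually_all]
    exact hcon
  obtain ⟨K, ⟨v, hv⟩, hK⟩ := (h.and h1).exists
  exact hK v hv

theorem freq_exists {ι : Type*} [Finite ι] (p : ι → ℕ → Prop)
    (h : ∃ᶠ K in atTop, ∃ v, p v K) : ∃ v, ∃ᶠ K in atTop, p v K := by
  by_contra hcon
  push Not at hcon
  have h1 : ∀ᶠ K in atTop, ∀ v, ¬ p v K := by
    rw [eventually_all]
    exact hcon
  obtain ⟨K, ⟨v, hv⟩, hK⟩ := (h.and_eventually h1).exists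
  exact hK v hv

theorem rich_step (A : ∀ K, ℕ → Finset (Ω K)) (m : ℕ → ℕ) (col : ∀ K k, Ω K → Fin (m k))
    (B : ∀ K, Finset (Ω K)) (hB : Rich A B) (N : ℕ) :
    ∃ k, N ≤ k ∧ ∃ v : Fin (m k),
      Rich A (fun K => (B K ∩ A K k).filter fun ω => col K k ω = v) := by
  obtain ⟨k, hk, η, hη, hfr⟩ := rich_pair A B hB N
  refine ⟨k, hk, ?_⟩
  have hm : 0 < m k := by
    obtain ⟨ω⟩ := (inferInstance : Nonempty (Ω 0))
    exact (col 0 k ω).pos
  have hm' : (0 : ℝ) < m k := by exact_mod_cast hm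
  have h1 : ∃ᶠ l in atTop, ∃ v : Fin (m k), ∀ᶠ K in (hyperfilter ℕ : Filter ℕ),
      η / m k * (Fintype.card (Ω K) : ℝ) ≤
        ((((B K ∩ A K k).filter fun ω => col K k ω = v) ∩ A K l).card : ℝ) := by
    refine hfr.mono ?_
    intro l hl
    apply ultra_exists
    filter_upwards [hl] with K hK
    by_contra hcon
    push Not at hcon
    have hsum : (B K ∩ A K k ∩ A K l).card =
        ∑ v : Fin (m k), (((B K ∩ A K k).filter fun ω => col K k ω = v) ∩ A K l).card := by
      rw [Finset.card_eq_sum_card_fiberwise (f := fun ω => col K k ω) (t := Finset.univ)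
        (fun _ _ => Finset.mem_univ _)]
      apply Finset.sum_congr rfl
      intro v _
      congr 1
      ext ω
      simp only [Finset.mem_filter, Finset.mem_inter]
      tauto
    have hcast : ((B K ∩ A K k ∩ A K l).card : ℝ) =
        ∑ v : Fin (m k), ((((B K ∩ A K k).filter fun ω => col K k ω = v) ∩ A K l).card : ℝ) := by
      exact_mod_cast hsum
    have hlt : ∑ v : Fin (m k),
        ((((B K ∩ A K k).filter fun ω => col K k ω = v) ∩ A K l).card : ℝ) <
        ∑ v : Fin (m k), η / m k * (Fintype.card (Ω K) : ℝ) := by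
      apply Finset.sum_lt_sum_of_nonempty
      · exact ⟨⟨0, hm⟩, Finset.mem_univ _⟩
      · exact fun v _ => hcon v
    rw [Finset.sum_const, Finset.card_univ, Fintype.card_fin, nsmul_eq_mul] at hlt
    have : (m k : ℝ) * (η / m k * (Fintype.card (Ω K) : ℝ)) = η * (Fintype.card (Ω K) : ℝ) := by
      field_simp
    rw [this] at hlt
    linarith
  obtain ⟨v, hv⟩ := freq_exists _ h1
  exact ⟨v, η / m k, by positivity, hv⟩

/-- states of the recursion. -/
structure QState (A : ∀ K, ℕ → Finset (Ω K)) where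
  B : ∀ K, Finset (Ω K)
  rich : Rich A B
  N : ℕ

theorem quench (A : ∀ K, ℕ → Finset (Ω K)) (m : ℕ → ℕ) (col : ∀ K k, Ω K → Fin (m k))
    (δ : ℝ) (hδ : 0 < δ)
    (hA : ∀ k, ∀ᶠ K in atTop, δ * (Fintype.card (Ω K) : ℝ) ≤ ((A K k).card : ℝ)) :
    ∃ κ : ℕ → ℕ, StrictMono κ ∧ ∃ v : ∀ j, Fin (m (κ j)), ∀ n, ∃ K, ∃ ω : Ω K,
      ∀ j, j < n → ω ∈ A K (κ j) ∧ col K (κ j) ω = v j := by
  have h0 : Rich A (fun K => Finset.univ) := by
    refine ⟨δ, hδ, Frequently.of_forall fun k => ?_⟩
    filter_upwards [(hA k).filter_mono Nat.hyperfilter_le_atTop] with K hK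
    rwa [Finset.univ_inter]
  choose kk hkk vv hvv using fun s : QState A => rich_step A m col s.B s.rich s.N
  let next : QState A → QState A := fun s =>
    ⟨fun K => (s.B K ∩ A K (kk s)).filter fun ω => col K (kk s) ω = vv s, hvv s, kk s + 1⟩
  let st : ℕ → QState A := fun j => Nat.rec ⟨fun K => Finset.univ, h0, 0⟩ (fun _ s => next s) j
  have hst : ∀ j, st (j + 1) = next (st j) := fun j => rfl
  refine ⟨fun j => kk (st j), ?_, fun j => vv (st j), ?_⟩
  · apply strictMono_nat_of_lt_succ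
    intro j
    have := hkk (st (j + 1))
    rw [hst] at this
    exact this
  · intro n
    have hsub : ∀ n, ∀ K, ∀ ω ∈ (st n).B K, ∀ j, j < n → ω ∈ A K (kk (st j)) ∧
        col K (kk (st j)) ω = vv (st j) := by
      intro n
      induction n with
      | zero => intro K ω _ j hj; omega
      | succ n ih =>
        intro K ω hω j hj
        rw [hst] at hω
        have hω' := Finset.mem_filter.1 hω
        have hω'' := Finset.mem_inter.1 hω'.1
        rcases Nat.lt_succ_iff_lt_or_eq.1 hj with h | h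
        · exact ih K ω hω''.1 j h
        · subst h
          exact ⟨hω''.2, hω'.2⟩
    obtain ⟨η, hη, hfr⟩ := (st n).rich
    obtain ⟨k, hk⟩ := hfr.exists
    obtain ⟨K, hK⟩ := hk.exists
    have hcard : (0 : ℝ) < Fintype.card (Ω K) := by exact_mod_cast Fintype.card_pos
    have hpos : 0 < ((st n).B K ∩ A K k).card := by
      have : (0 : ℝ) < (((st n).B K ∩ A K k).card : ℝ) := lt_of_lt_of_le (by positivity) hK
      exact_mod_cast this
    obtain ⟨ω, hω⟩ := Finset.card_pos.1 hpos
    exact ⟨K, ω, hsub n K ω (Finset.mem_inter.1 hω).1⟩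

end Pool.Agent.W_MP_d6e406_h18
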