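import Mathlib

set_option autoImplicit false

open Filter Topology Finset

/-!
Walsh systems over a finite sign space.
-/

namespace Pool.Agent.W_MP_d6e406_h18

universe u v

variable {X : Type u} [NormedAddCommGroup X] [NormedSpace ℝ X]

section

variable {R : Type v} [Fintype R] (ρ : ℕ → R → ℝ)

/-- Walsh coefficients. -/
noncomputable def wz (Z : R → (X →L[ℝ] ℝ)) (T : Finset ℕ) : X →L[ℝ] ℝ :=
  ((Fintype.card R : ℝ)⁻¹) • ∑ r, (∏ j ∈ T, ρ j r) • Z r

variable (hρ : ∀ j r, ρ j r = 1 ∨ ρ j r = -1)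

omit [Fintype R] in
include hρ in
theorem prod_mul_prod (T T' : Finset ℕ) (r : R) :
    (∏ j ∈ T, ρ j r) * (∏ j ∈ T', ρ j r) = ∏ j ∈ (T ∪ T') \ (T ∩ T'), ρ j r := by
  have h1 : (∏ j ∈ (T ∪ T') \ (T ∩ T'), ρ j r) * (∏ j ∈ T ∩ T', ρ j r) = ∏ j ∈ T ∪ T', ρ j r := by
    apply Finset.prod_sdiff
    exact Finset.inter_subset_left.trans Finset.subset_union_left
  have h2 : (∏ j ∈ T ∪ T', ρ j r) * (∏ j ∈ T ∩ T', ρ j r) =
      (∏ j ∈ T, ρ j r) * (∏ j ∈ T', ρ j r) := Finset.prod_union_inter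
  have h3 : (∏ j ∈ T ∩ T', ρ j r) * (∏ j ∈ T ∩ T', ρ j r) = 1 := by
    rw [← Finset.prod_mul_distrib]
    apply Finset.prod_eq_one
    intro j _
    rcases hρ j r with h | h <;> rw [h] <;> norm_num
  rw [← h2, ← h1, mul_assoc, h3, mul_one]

variable (n : ℕ) (horth : ∀ T, T ⊆ range n → T.Nonempty → ∑ r, ∏ j ∈ T, ρ j r = 0)

include hρ horth in
theorem orth (T T' : Finset ℕ) (hT : T ⊆ range n) (hT' : T' ⊆ range n) :
    ∑ r, (∏ j ∈ T, ρ j r) * (∏ j ∈ T', ρ j r) = if T = T' then (Fintype.card R : ℝ) else 0 := by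
  simp_rw [prod_mul_prod ρ hρ]
  split_ifs with h
  · subst h
    simp
  · apply horth
    · exact Finset.sdiff_subset.trans (Finset.union_subset hT hT')
    · rw [Finset.nonempty_iff_ne_empty]
      intro h0
      apply h
      rw [Finset.sdiff_eq_empty_iff_subset] at h0
      apply Finset.Subset.antisymm
      · intro j hj
        exact (Finset.mem_inter.1 (h0 (Finset.mem_union_left _ hj))).2
      · intro j hj
        exact (Finset.mem_inter.1 (h0 (Finset.mem_union_right _ hj))).1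

variable [Nonempty R]

include hρ horth in
theorem wz_bessel (Z : R → (X →L[ℝ] ℝ)) (hZ : ∀ r, ‖Z r‖ ≤ 1) (x : X) (hx : ‖x‖ ≤ 1)
    (F : Finset (Finset ℕ)) (hF : ∀ T ∈ F, T ⊆ range n) : ∑ T ∈ F, (wz ρ Z T x) ^ 2 ≤ 1 := by
  have hcard : (0 : ℝ) < Fintype.card R := by exact_mod_cast Fintype.card_pos
  set N : ℝ := (Fintype.card R : ℝ) with hN
  set a : Finset ℕ → ℝ := fun T => wz ρ Z T x with ha
  have ha' : ∀ T, ∑ r, (∏ j ∈ T, ρ j r) * Z r x = N * a T := by
    intro T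
    simp only [ha, wz]
    rw [_root_.smul_apply, _root_.sum_apply, smul_eq_mul, ← hN,
      mul_inv_cancel_left₀ hcard.ne']
    rfl
  have hZx : ∀ r, (Z r x) ^ 2 ≤ 1 := by
    intro r
    rw [sq_le_one_iff_abs_le_one, ← Real.norm_eq_abs]
    calc ‖Z r x‖ ≤ ‖Z r‖ * ‖x‖ := (Z r).le_opNorm x
      _ ≤ 1 * 1 := mul_le_mul (hZ r) hx (norm_nonneg _) zero_le_one
      _ = 1 := one_mul 1
  have h0 : 0 ≤ ∑ r, (Z r x - ∑ T ∈ F, a T * ∏ j ∈ T, ρ j r) ^ 2 :=
    Finset.sum_nonneg fun r _ => sq_nonneg _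
  have h1 : ∑ r, (Z r x - ∑ T ∈ F, a T * ∏ j ∈ T, ρ j r) ^ 2 =
      ∑ r, (Z r x) ^ 2 - 2 * ∑ r, ∑ T ∈ F, a T * ((∏ j ∈ T, ρ j r) * Z r x) +
      ∑ r, ∑ T ∈ F, ∑ T' ∈ F, a T * a T' * ((∏ j ∈ T, ρ j r) * ∏ j ∈ T', ρ j r) := by
    rw [Finset.mul_sum, ← Finset.sum_sub_distrib, ← Finset.sum_add_distrib]
    apply Finset.sum_congr rfl
    intro r _
    rw [sub_sq]
    congr 1
    · congr 1
      rw [mul_assoc, Finset.mul_sum]
      congr 1
      apply Finset.sum_congr rfl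
      intro T _
      ring
    · rw [sq, Finset.sum_mul_sum]
      apply Finset.sum_congr rfl
      intro T _
      apply Finset.sum_congr rfl
      intro T' _
      ring
  have h2 : ∑ r, ∑ T ∈ F, a T * ((∏ j ∈ T, ρ j r) * Z r x) = N * ∑ T ∈ F, (a T) ^ 2 := by
    rw [Finset.sum_comm, Finset.mul_sum]
    apply Finset.sum_congr rfl
    intro T _
    rw [← Finset.mul_sum, ha' T]
    ring
  have h3 : ∑ r, ∑ T ∈ F, ∑ T' ∈ F, a T * a T' * ((∏ j ∈ T, ρ j r) * ∏ j ∈ T', ρ j r) =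
      N * ∑ T ∈ F, (a T) ^ 2 := by
    rw [Finset.sum_comm, Finset.mul_sum]
    apply Finset.sum_congr rfl
    intro T hT
    rw [Finset.sum_comm]
    have : ∀ T' ∈ F, ∑ r, a T * a T' * ((∏ j ∈ T, ρ j r) * ∏ j ∈ T', ρ j r) =
        if T = T' then N * (a T) ^ 2 else 0 := by
      intro T' hT'
      rw [← Finset.mul_sum, orth ρ hρ n horth T T' (hF T hT) (hF T' hT')]
      split_ifs with h
      · subst h; ring
      · ring
    rw [Finset.sum_congr rfl this, Finset.sum_ite_eq, if_pos hT]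
  have h4 : ∑ r, (Z r x) ^ 2 ≤ N := by
    calc ∑ r, (Z r x) ^ 2 ≤ ∑ r : R, (1 : ℝ) := Finset.sum_le_sum fun r _ => hZx r
      _ = N := by simp [hN]
  rw [h1, h2, h3] at h0
  have h5 : N * ∑ T ∈ F, (a T) ^ 2 ≤ N * 1 := by linarith
  exact le_of_mul_le_mul_left h5 hcard

include hρ horth in
theorem wz_riesz (Z : R → (X →L[ℝ] ℝ)) (hZ : ∀ r, ‖Z r‖ ≤ 1) (P : Finset ℕ)
    (hP : P ⊆ range n) (s : ℕ → ℝ) (hs : ∀ j, |s j| = 1) :
    ‖∑ T ∈ P.powerset, (∏ j ∈ T, s j) • wz ρ Z T‖ ≤ 1 := by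
  have hcard : (0 : ℝ) < Fintype.card R := by exact_mod_cast Fintype.card_pos
  set N : ℝ := (Fintype.card R : ℝ) with hN
  have hg : ∀ r, ∏ j ∈ P, (1 + s j * ρ j r) =
      ∑ T ∈ P.powerset, (∏ j ∈ T, s j) * ∏ j ∈ T, ρ j r := by
    intro r
    rw [Finset.prod_one_add]
    apply Finset.sum_congr rfl
    intro T _
    rw [Finset.prod_mul_distrib]
  have hg0 : ∀ r, 0 ≤ ∏ j ∈ P, (1 + s j * ρ j r) := by
    intro r
    apply Finset.prod_nonneg
    intro j _
    have : |s j * ρ j r| = 1 := by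
      rw [abs_mul, hs, one_mul]
      rcases hρ j r with h | h <;> rw [h] <;> norm_num
    have := (abs_le.1 this.le).1
    linarith
  have hgs : ∑ r, ∏ j ∈ P, (1 + s j * ρ j r) = N := by
    simp_rw [hg]
    rw [Finset.sum_comm]
    have : ∀ T ∈ P.powerset, ∑ r, (∏ j ∈ T, s j) * ∏ j ∈ T, ρ j r = if ∅ = T then N else 0 := by
      intro T hT
      rw [← Finset.mul_sum]
      split_ifs with h
      · subst h; simp [hN]
      · rw [horth T ((Finset.mem_powerset.1 hT).trans hP)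
          (Finset.nonempty_iff_ne_empty.2 fun h' => h h'.symm), mul_zero]
    rw [Finset.sum_congr rfl this, Finset.sum_ite_eq, if_pos (Finset.empty_mem_powerset P)]
  have hsum : ∑ T ∈ P.powerset, (∏ j ∈ T, s j) • wz ρ Z T =
      N⁻¹ • ∑ r, (∏ j ∈ P, (1 + s j * ρ j r)) • Z r := by
    simp_rw [hg]
    unfold wz
    rw [← hN]
    simp_rw [Finset.sum_smul, smul_comm _ N⁻¹]
    rw [← Finset.smul_sum]
    congr 1
    rw [Finset.sum_comm]
    apply Finset.sum_congr rfl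
    intro T _
    rw [Finset.smul_sum]
    apply Finset.sum_congr rfl
    intro r _
    rw [smul_smul]
  rw [hsum, norm_smul]
  have hn : ‖∑ r, (∏ j ∈ P, (1 + s j * ρ j r)) • Z r‖ ≤ N := by
    calc _ ≤ ∑ r, ‖(∏ j ∈ P, (1 + s j * ρ j r)) • Z r‖ := norm_sum_le _ _
      _ ≤ ∑ r, ∏ j ∈ P, (1 + s j * ρ j r) := by
          apply Finset.sum_le_sum
          intro r _
          rw [norm_smul, Real.norm_eq_abs, abs_of_nonneg (hg0 r)]
          exact mul_le_of_le_one_right (hg0 r) (hZ r)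
      _ = N := hgs
  rw [Real.norm_eq_abs, abs_of_pos (inv_pos.2 hcard)]
  calc N⁻¹ * _ ≤ N⁻¹ * N := mul_le_mul_of_nonneg_left hn (inv_pos.2 hcard).le
    _ = 1 := inv_mul_cancel₀ hcard.ne'

end

/-- orthogonality for coordinate signs on the cube. -/
theorem cube_orth (K : ℕ) (κ : ℕ → Fin K) (n : ℕ) (hκ : ∀ i < n, ∀ j < n, κ i = κ j → i = j)
    (T : Finset ℕ) (hT : T ⊆ range n) (hne : T.Nonempty) :
    ∑ r : Fin K → Bool, ∏ j ∈ T, (if r (κ j) then (1 : ℝ) else -1) = 0 := by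
  obtain ⟨i, hi⟩ := hne
  have hflip : ∀ r : Fin K → Bool, ∏ j ∈ T, (if Function.update r (κ i) (!(r (κ i))) (κ j)
      then (1 : ℝ) else -1) = - ∏ j ∈ T, (if r (κ j) then (1 : ℝ) else -1) := by
    intro r
    rw [← Finset.mul_prod_erase T _ hi, ← Finset.mul_prod_erase T (fun j => if r (κ j) then
      (1 : ℝ) else -1) hi]
    rw [Function.update_self]
    have : ∏ x ∈ T.erase i, (if Function.update r (κ i) (!(r (κ i))) (κ x) = true then (1 : ℝ)
        else -1) = ∏ x ∈ T.erase i, (if r (κ x) = true then (1 : ℝ) else -1) := by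
      apply Finset.prod_congr rfl
      intro x hx
      have hxi : κ x ≠ κ i := by
        intro h
        exact (Finset.mem_erase.1 hx).1 (hκ x (Finset.mem_range.1 (hT (Finset.mem_erase.1 hx).2)) i
          (Finset.mem_range.1 (hT hi)) h)
      rw [Function.update_of_ne hxi]
    rw [this]
    cases r (κ i) <;> simp
  let e : (Fin K → Bool) ≃ (Fin K → Bool) :=
    { toFun := fun r => Function.update r (κ i) (!(r (κ i)))
      invFun := fun r => Function.update r (κ i) (!(r (κ i)))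
      left_inv := by intro r; simp
      right_inv := by intro r; simp }
  have h := Equiv.sum_comp e (fun r : Fin K → Bool => ∏ j ∈ T, (if r (κ j) then (1 : ℝ) else -1))
  have h' : ∑ r : Fin K → Bool, ∏ j ∈ T, (if e r (κ j) then (1 : ℝ) else -1) =
      - ∑ r : Fin K → Bool, ∏ j ∈ T, (if r (κ j) then (1 : ℝ) else -1) := by
    rw [← Finset.sum_neg_distrib]
    exact Finset.sum_congr rfl fun r _ => hflip r
  rw [h'] at h
  linarith

end Pool.Agent.W_MP_d6e406_h18
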