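import Pool.Agent.W_MP_d6e406_h11.Defs
import Pool.Agent.W_MP_d6e406_h18.Ell1
import Pool.Agent.W_MP_d6e406_h18.Walsh
import Pool.Agent.W_MP_d6e406_h18.Quench

set_option autoImplicit false

open Filter Topology Finset

/-!
`no_tree`: a space without a copy of `ℓ₁` has no system of finite trees as in Step 2.
-/

namespace Pool.Agent.W_MP_d6e406_h18

open Pool.Agent.W_MP_d6e406_h11

universe u

variable {X : Type u} [NormedAddCommGroup X] [NormedSpace ℝ X]

/-- index plus signs. -/
def pairEquiv (m : ℕ → ℕ) (K : ℕ) :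
    (((k : Fin K) → Fin (m k)) × (Fin K → Bool)) ≃ ((k : Fin K) → Fin (m k) × Bool) where
  toFun p := fun k => (p.1 k, p.2 k)
  invFun ω := (fun k => (ω k).1, fun k => (ω k).2)
  left_inv _ := rfl
  right_inv _ := rfl

theorem no_tree [CompleteSpace X] (hX : ¬ HasEll1 X) (m : ℕ → ℕ) (hm : ∀ k, 0 < m k)
    (y : ∀ k, Fin (m k) → X) (hy : ∀ k i, ‖y k i‖ ≤ 1) (c : ℝ) (hc : 0 < c) :
    ¬ ∀ K : ℕ, ∃ Z : ((k : Fin K) → Fin (m k) × Bool) → (X →L[ℝ] ℝ), (∀ ω, ‖Z ω‖ ≤ 1) ∧
      ∀ k : Fin K, c * Fintype.card ((k : Fin K) → Fin (m k) × Bool) ≤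
        ∑ ω, (if (ω k).2 then 1 else -1) * Z ω (y k (ω k).1) := by
  intro H
  apply hX
  choose Z hZ1 hZ2 using H
  have hne : ∀ K : ℕ, Nonempty ((k : Fin K) → Fin (m k)) := fun K =>
    ⟨fun k => ⟨0, hm k⟩⟩
  -- the events and the colours
  let φ : ∀ K : ℕ, ∀ k : Fin K, ((k : Fin K) → Fin (m k)) → ℝ := fun K k i =>
    ∑ r : Fin K → Bool, (if r k then (1 : ℝ) else -1) * Z K (pairEquiv m K (i, r)) (y k (i k))
  let A : ∀ K : ℕ, ℕ → Finset ((k : Fin K) → Fin (m k)) := fun K k =>
    if h : k < K then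
      Finset.univ.filter fun i => c / 2 * (Fintype.card (Fin K → Bool) : ℝ) ≤ φ K ⟨k, h⟩ i
    else ∅
  let col : ∀ K k : ℕ, ((k : Fin K) → Fin (m k)) → Fin (m k) := fun K k i =>
    if h : k < K then i ⟨k, h⟩ else ⟨0, hm k⟩
  have hA : ∀ k, ∀ᶠ K in atTop, c / 2 * (Fintype.card ((k : Fin K) → Fin (m k)) : ℝ) ≤
      ((A K k).card : ℝ) := by
    intro k
    filter_upwards [eventually_gt_atTop k] with K hK
    have hAK : A K k = Finset.univ.filter fun i =>
        c / 2 * (Fintype.card (Fin K → Bool) : ℝ) ≤ φ K ⟨k, hK⟩ i := by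
      simp only [A, dif_pos hK]
    set R : ℝ := (Fintype.card (Fin K → Bool) : ℝ) with hR
    have hRpos : 0 < R := by
      rw [hR]; exact_mod_cast Fintype.card_pos
    set I : ℝ := (Fintype.card ((k : Fin K) → Fin (m k)) : ℝ) with hI
    have hIpos : 0 < I := by
      rw [hI]; exact_mod_cast Fintype.card_pos
    have hcard : (Fintype.card ((k : Fin K) → Fin (m k) × Bool) : ℝ) = I * R := by
      rw [← Fintype.card_congr (pairEquiv m K), Fintype.card_prod, Nat.cast_mul]
    have h1 : c * (I * R) ≤ ∑ i, φ K ⟨k, hK⟩ i := by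
      have := hZ2 K ⟨k, hK⟩
      rw [hcard] at this
      refine this.trans (le_of_eq ?_)
      rw [← Equiv.sum_comp (pairEquiv m K), Fintype.sum_prod_type]
      rfl
    have hφ : ∀ i, φ K ⟨k, hK⟩ i ≤ R := by
      intro i
      calc φ K ⟨k, hK⟩ i ≤ ∑ r : Fin K → Bool, (1 : ℝ) := by
            apply Finset.sum_le_sum
            intro r _
            have h2 : |Z K (pairEquiv m K (i, r)) (y k (i ⟨k, hK⟩))| ≤ 1 := by
              rw [← Real.norm_eq_abs]
              calc _ ≤ ‖Z K (pairEquiv m K (i, r))‖ * ‖y k (i ⟨k, hK⟩)‖ :=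
                    ContinuousLinearMap.le_opNorm _ _
                _ ≤ 1 * 1 := mul_le_mul (hZ1 _ _) (hy _ _) (norm_nonneg _) zero_le_one
                _ = 1 := one_mul 1
            have h3 := abs_le.1 h2
            split_ifs
            · linarith [h3.2]
            · linarith [h3.1]
        _ = R := by simp [hR]
    have h2 : ∑ i, φ K ⟨k, hK⟩ i ≤ (A K k).card * R + I * (c / 2 * R) := by
      have hle : ∀ i, φ K ⟨k, hK⟩ i ≤ (if i ∈ A K k then R else 0) + c / 2 * R := by
        intro i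
        have hp : 0 ≤ c / 2 * R := by positivity
        split_ifs with h
        · linarith [hφ i]
        · rw [hAK, Finset.mem_filter] at h
          push Not at h
          linarith [h (Finset.mem_univ _)]
      calc ∑ i, φ K ⟨k, hK⟩ i ≤ ∑ i, ((if i ∈ A K k then R else 0) + c / 2 * R) :=
            Finset.sum_le_sum fun i _ => hle i
        _ = (A K k).card * R + I * (c / 2 * R) := by
            rw [Finset.sum_add_distrib, Finset.sum_const, Finset.card_univ, nsmul_eq_mul]
            congr 1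
            rw [Finset.sum_ite_mem, Finset.univ_inter, Finset.sum_const, nsmul_eq_mul]
    have h3 : (c / 2 * I) * R ≤ (A K k).card * R := by nlinarith
    exact le_of_mul_le_mul_right h3 hRpos
  obtain ⟨κ, hκ, v, hv⟩ := quench A m col (c / 2) (by positivity) hA
  refine ell1_of_walsh (fun j => y (κ j) (v j)) (fun j => hy _ _) (c / 2) (by positivity) ?_
  intro n
  obtain ⟨K, i, hi⟩ := hv n
  have hlt : ∀ j, j < n → κ j < K := by
    intro j hj
    by_contra hcon
    have := (hi j hj).1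
    simp only [A, dif_neg hcon] at this
    exact absurd this (Finset.notMem_empty _)
  let ρ : ℕ → (Fin K → Bool) → ℝ := fun j r =>
    if h : κ j < K then (if r ⟨κ j, h⟩ then (1 : ℝ) else -1) else 1
  have hρ : ∀ j r, ρ j r = 1 ∨ ρ j r = -1 := by
    intro j r
    simp only [ρ]
    split_ifs
    · exact Or.inl rfl
    · exact Or.inr rfl
    · exact Or.inl rfl
  have horth : ∀ T, T ⊆ range n → T.Nonempty → ∑ r, ∏ j ∈ T, ρ j r = 0 := by
    intro T hT hne'
    obtain ⟨j0, hj0⟩ := hne'
    have hKpos : 0 < K := lt_of_le_of_lt (Nat.zero_le _) (hlt j0 (Finset.mem_range.1 (hT hj0)))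
    let κ' : ℕ → Fin K := fun j => if h : κ j < K then ⟨κ j, h⟩ else ⟨0, hKpos⟩
    have := cube_orth K κ' n (by
      intro a ha b hb hab
      simp only [κ', dif_pos (hlt a ha), dif_pos (hlt b hb)] at hab
      exact hκ.injective (Fin.mk.inj_iff.1 hab)) T hT ⟨j0, hj0⟩
    rw [← this]
    apply Finset.sum_congr rfl
    intro r _
    apply Finset.prod_congr rfl
    intro j hj
    have hj' := hlt j (Finset.mem_range.1 (hT hj))
    simp only [ρ, κ', dif_pos hj']
  refine ⟨wz ρ fun r => Z K (pairEquiv m K (i, r)), ?_, ?_, ?_⟩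
  · intro x hx F hF
    exact wz_bessel ρ hρ n horth _ (fun r => hZ1 _ _) x hx F hF
  · intro P hP s hs
    exact wz_riesz ρ hρ n horth _ (fun r => hZ1 _ _) P hP s hs
  · intro k hk
    have hk' := hlt k hk
    have h1 := (hi k hk).1
    have h2 := (hi k hk).2
    simp only [A, dif_pos hk', Finset.mem_filter] at h1
    simp only [col, dif_pos hk'] at h2
    have hcard : (0 : ℝ) < Fintype.card (Fin K → Bool) := by exact_mod_cast Fintype.card_pos
    have h3 : wz ρ (fun r => Z K (pairEquiv m K (i, r))) {k} (y (κ k) (v k)) =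
        (Fintype.card (Fin K → Bool) : ℝ)⁻¹ * φ K ⟨κ k, hk'⟩ i := by
      unfold wz
      rw [_root_.smul_apply, _root_.sum_apply, smul_eq_mul]
      congr 1
      apply Finset.sum_congr rfl
      intro r _
      rw [_root_.smul_apply, smul_eq_mul, Finset.prod_singleton]
      simp only [ρ, dif_pos hk']
      rw [h2]
    rw [h3]
    calc c / 2 = (Fintype.card (Fin K → Bool) : ℝ)⁻¹ *
          (c / 2 * (Fintype.card (Fin K → Bool) : ℝ)) := by field_simp
      _ ≤ _ := mul_le_mul_of_nonneg_left h1.2 (inv_pos.2 hcard).le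

end Pool.Agent.W_MP_d6e406_h18
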