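import Pool.Agent.W_MP_d6e406_an.Final
import Pool.Agent.W_MP_d6e406_h11.Defs

set_option autoImplicit false

open Filter Topology Finset

/-!
The direction `dual ALUR norm ⇒ no ℓ₁`, from helper47's theorem `main_seq`.
-/

namespace Pool.Agent.W_MP_d6e406_h18

open Pool.Agent.W_MP_d6e406_h11

universe u

theorem reverse (X : Type u) [NormedAddCommGroup X] [NormedSpace ℝ X]
    (h : ∃ N : X → ℝ, (∀ x y, N (x + y) ≤ N x + N y) ∧ (∀ (r : ℝ) (x : X), N (r • x) = |r| * N x) ∧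
      (∃ c C : ℝ, 0 < c ∧ ∀ x, c * ‖x‖ ≤ N x ∧ N x ≤ C * ‖x‖) ∧
      ∀ f : X →L[ℝ] ℝ, (∀ x, f x ≤ N x) → (∀ ε : ℝ, 0 < ε → ∃ x, N x ≤ 1 ∧ 1 - ε < f x) →
        (f ∈ Set.extremePoints ℝ {g : X →L[ℝ] ℝ | ∀ x, g x ≤ N x} ∧
         ∀ ε : ℝ, 0 < ε → ∃ F : Finset ((X →L[ℝ] ℝ) →L[ℝ] ℝ), ∃ δ : ℝ, 0 < δ ∧
           ∀ g : X →L[ℝ] ℝ, (∀ x, g x ≤ N x) → (∀ φ ∈ F, |φ (g - f)| < δ) → ‖g - f‖ < ε)) :
    ¬ HasEll1 X := by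
  rintro ⟨T, c, hc, hTc⟩
  obtain ⟨N, hN1, hN2, ⟨c1, C1, hc1, hN⟩, hall⟩ := h
  obtain ⟨f, g, ε, hε, h1, h2, h3, h4, h5⟩ :=
    Pool.Agent.W_MP_d6e406_an.main_seq T c hc hTc N hN2 c1 hc1 (fun x => (hN x).1)
  obtain ⟨_, hk⟩ := hall f h1 h2
  obtain ⟨F, δ, hδ, hF⟩ := hk ε hε
  have hev : ∀ᶠ n in atTop, ∀ φ ∈ F, |φ (g n - f)| < δ := by
    rw [eventually_all_finset]
    intro φ _
    have := (Metric.tendsto_nhds.1 (h4 φ)) δ hδ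
    filter_upwards [this] with n hn
    rwa [Real.dist_eq, ← map_sub] at hn
  obtain ⟨n, hn⟩ := hev.exists
  exact absurd (hF (g n) (h3 n) hn) (not_lt.2 (h5 n))

end Pool.Agent.W_MP_d6e406_h18
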